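import Pool.Agent.E8helper39.WW.Stm

/-!
# Project WW, parts NC1 and NC2: coloops split off; without skew circuits the rest is connected
-/

set_option autoImplicit false

open Module Submodule

namespace Pool.Agent.E8helper57.WW

open WW39

variable {V : Type} [AddCommGroup V] [Module ℝ V]

theorem NC_sub (A : Set V) : NC A ⊆ A := fun _ h => h.1

/-- elements outside the span of the others are independent of the rest -/
theorem disjoint_of_notMem {N D : Set V} (hD : D.Finite)
    (h : ∀ d ∈ D, d ∉ span ℝ (N ∪ (D \ {d}))) : Disjoint (span ℝ N) (span ℝ D) := by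
  classical
  rw [Submodule.disjoint_def]
  intro x hx hxD
  obtain ⟨s, rfl⟩ : ∃ s : Finset V, (s : Set V) = D := ⟨hD.toFinset, by simp⟩
  obtain ⟨f, -, hf⟩ := Submodule.mem_span_finset.1 hxD
  by_contra hx0
  obtain ⟨d, hd, hfd⟩ : ∃ d ∈ s, f d ≠ 0 := by
    by_contra hcon
    push Not at hcon
    apply hx0
    rw [← hf]
    exact Finset.sum_eq_zero fun a ha => by rw [hcon a ha, zero_smul]
  apply h d (by exact_mod_cast hd)
  have h1 : f d • d = x - ∑ a ∈ s.erase d, f a • a := by
    rw [← hf, ← Finset.add_sum_erase s (fun a => f a • a) hd]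
    abel
  have h2 : f d • d ∈ span ℝ (N ∪ ((s : Set V) \ {d})) := by
    rw [h1]
    refine sub_mem (span_mono Set.subset_union_left hx) (sum_mem fun a ha => ?_)
    refine smul_mem _ _ (subset_span (Or.inr ?_))
    rw [Finset.mem_erase] at ha
    exact ⟨by exact_mod_cast ha.2, fun hh => ha.1 hh⟩
  have h3 := smul_mem _ (f d)⁻¹ h2
  rwa [smul_smul, inv_mul_cancel₀ hfd, one_smul] at h3

/-- an element of a span of a union, with disjoint spans -/
theorem mem_of_disjoint {N D : Set V} {e : V} (hN : e ∈ N)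
    (hd : Disjoint (span ℝ N) (span ℝ D)) (he : e ∈ span ℝ ((N \ {e}) ∪ D)) :
    e ∈ span ℝ (N \ {e}) := by
  rw [span_union, mem_sup] at he
  obtain ⟨y, hy, w, hw, hyw⟩ := he
  have h1 : w ∈ span ℝ N := by
    have : w = e - y := by rw [← hyw]; abel
    rw [this]
    exact sub_mem (subset_span hN) (span_mono Set.diff_subset hy)
  have h2 : w = 0 := (Submodule.disjoint_def.1 hd) w h1 hw
  rw [h2, add_zero] at hyw
  rwa [hyw] at hy

theorem t_NC1 : S_NC1 := by
  intro V _ _ A hA
  have hD : ∀ d ∈ A \ NC A, d ∉ span ℝ (NC A ∪ ((A \ NC A) \ {d})) := by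
    rintro d ⟨hdA, hdN⟩ hd
    apply hdN
    refine ⟨hdA, span_mono ?_ hd⟩
    rintro a (ha | ha)
    · exact ⟨ha.1, fun h => hdN (by rw [Set.mem_singleton_iff] at h; exact h ▸ ha)⟩
    · exact ⟨ha.1.1, ha.2⟩
  have h1 : Disjoint (span ℝ (NC A)) (span ℝ (A \ NC A)) :=
    disjoint_of_notMem (hA.subset Set.diff_subset) hD
  refine ⟨h1, ?_, ?_⟩
  · rw [linearIndepOn_iff_notMem_span]
    intro d hd h
    rw [Set.image_id] at h
    exact hD d hd (span_mono Set.subset_union_right h)
  · intro e he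
    refine mem_of_disjoint he h1 (span_mono ?_ he.2)
    rintro a ⟨haA, hae⟩
    by_cases ha : a ∈ NC A
    · exact Or.inl ⟨ha, hae⟩
    · exact Or.inr ⟨haA, ha⟩

theorem indep_empty {A B : Set V} (hAB : Disjoint (span ℝ A) (span ℝ B))
    (hi : LinearIndepOn ℝ id A) (h : ∀ e ∈ A, e ∈ span ℝ ((A ∪ B) \ {e})) : A = ∅ := by
  rw [Set.eq_empty_iff_forall_notMem]
  intro e he
  rw [linearIndepOn_iff_notMem_span] at hi
  apply hi e he
  rw [Set.image_id]
  refine mem_of_disjoint he hAB (span_mono ?_ (h e he))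
  rintro a ⟨ha | ha, hae⟩
  · exact Or.inl ⟨ha, hae⟩
  · exact Or.inr ha

theorem t_NC2 (h : S_NC1) : S_NC2 := by
  intro V _ _ E A hE hNS hAE A1 hA1 hdis
  obtain ⟨-, -, h3⟩ := h V A (hE.subset hAE)
  have hsub : NC A ⊆ E := (NC_sub A).trans hAE
  rcases hNS A1 (hA1.trans hsub) (NC A \ A1) (Set.diff_subset.trans hsub) hdis with hi | hi
  · left
    refine indep_empty hdis hi fun e he => ?_
    rw [Set.union_diff_cancel hA1]
    exact h3 e (hA1 he)
  · right
    have h4 : NC A \ A1 = ∅ := by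
      refine indep_empty hdis.symm hi fun e he => ?_
      rw [Set.diff_union_of_subset hA1]
      exact h3 e he.1
    exact hA1.antisymm (Set.diff_eq_empty.1 h4)

end Pool.Agent.E8helper57.WW
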